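import Mathlib
import Pool.Agent.Shared.PolyTime.Enc

/-! Global domination for two edge-disjoint Hamiltonian paths. -/

set_option autoImplicit false

namespace Pool.Agent.Lib.MP_833c47_lc

open Pool.Agent.Shared.PolyTime

/-- The sequence `P` lists each of the vertices `1, ..., n` exactly once. -/
def IsHamPath (n : ℕ) (P : List ℕ) : Prop := P.Perm (List.range' 1 n)

/-- `u` and `v` are consecutive in the sequence `P`, that is, `uv` is an edge of the path. -/
def PathAdj (P : List ℕ) (u v : ℕ) : Prop :=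
  ∃ i : ℕ, (P[i]? = some u ∧ P[i + 1]? = some v) ∨ (P[i]? = some v ∧ P[i + 1]? = some u)

/-- `D` dominates the path `P` on the vertices `1, ..., n`. -/
def Dominates (n : ℕ) (P : List ℕ) (D : Finset ℕ) : Prop :=
  ∀ v ∈ Finset.Icc 1 n, v ∉ D → ∃ u ∈ D, PathAdj P u v

/-- Instances: `n`, two edge-disjoint Hamiltonian paths on `{1, ..., n}` and a bound `M`. -/
structure Inst : Type where
  n : ℕ
  P₁ : List ℕ
  P₂ : List ℕ
  M : ℕ
  ham₁ : IsHamPath n P₁
  ham₂ : IsHamPath n P₂
  disj : ∀ u v : ℕ, PathAdj P₁ u v → ¬ PathAdj P₂ u v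

/-- Yes-instances: there is a global dominating set with at most `M` vertices. -/
def Yes (I : Inst) : Prop :=
  ∃ D : Finset ℕ, D ⊆ Finset.Icc 1 I.n ∧ D.card ≤ I.M ∧ Dominates I.n I.P₁ D ∧ Dominates I.n I.P₂ D

/-- The encoding of an instance as a binary string (numbers in unary). -/
def encInst (I : Inst) : List Bool :=
  encPair (encNat I.n) (encPair (encList encNat I.P₁) (encPair (encList encNat I.P₂) (encNat I.M)))

end Pool.Agent.Lib.MP_833c47_lc
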