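import Pool.Agent.Lib.MP_833c47_lc.Red
import Pool.Agent.Shared.NP.CookLevin

/-! NP-completeness of global domination for two paths. -/

set_option autoImplicit false

namespace Pool.Agent.Lib.MP_833c47_lc

open Pool.Agent.Shared.PolyTime Pool.Agent.Shared.NP

/-- the literal of an occurrence -/
def lit (φ : CNF3) (o : ℕ) : Lit :=
  bif o % 3 == 0 then (φ.getD (o / 3) ((false, 0), (false, 0), (false, 0))).1
  else bif o % 3 == 1 then (φ.getD (o / 3) ((false, 0), (false, 0), (false, 0))).2.1
  else (φ.getD (o / 3) ((false, 0), (false, 0), (false, 0))).2.2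

/-- opposite literals -/
def conflict (φ : CNF3) (o t : ℕ) : Bool :=
  (lit φ o).2 == (lit φ t).2 && !((lit φ o).1 == (lit φ t).1)

theorem lit0 (φ : CNF3) {c : ℕ} (hc : c < φ.length) : lit φ (3 * c) = φ[c].1 := by
  unfold lit
  rw [show 3 * c % 3 = 0 by omega, show 3 * c / 3 = c by omega, List.getD_eq_getElem _ _ hc]
  rfl

theorem lit1 (φ : CNF3) {c : ℕ} (hc : c < φ.length) : lit φ (3 * c + 1) = φ[c].2.1 := by
  unfold lit
  rw [show (3 * c + 1) % 3 = 1 by omega, show (3 * c + 1) / 3 = c by omega,
    List.getD_eq_getElem _ _ hc]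
  rfl

theorem lit2 (φ : CNF3) {c : ℕ} (hc : c < φ.length) : lit φ (3 * c + 2) = φ[c].2.2 := by
  unfold lit
  rw [show (3 * c + 2) % 3 = 2 by omega, show (3 * c + 2) / 3 = c by omega,
    List.getD_eq_getElem _ _ hc]
  rfl

/-- the instance of a formula -/
def red (φ : CNF3) : Inst :=
  netInst (kk (3 * φ.length)) (L1 (3 * φ.length)) (L2 φ.length (conflict φ)) (full1 _) (full2 _ _)
    (nz_L _ _)

theorem red_iff (φ : CNF3) : Sat3 φ ↔ Yes (red φ) := by
  unfold red
  rw [net_iff]
  constructor
  · rintro ⟨asg, h⟩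
    refine complete _ _ (fun o => asg (lit φ o).2 == (lit φ o).1) (fun o t _ _ hc so st => ?_)
      fun c hc => ?_
    · simp only [conflict, Bool.and_eq_true, beq_iff_eq, Bool.not_eq_true', beq_eq_false_iff_ne]
        at hc so st
      exact hc.2 (by rw [← so, ← st, hc.1])
    · simp only [beq_iff_eq]
      rw [lit0 φ hc, lit1 φ hc, lit2 φ hc]
      exact h _ (List.getElem_mem hc)
  · rintro ⟨s, h₁, h₂⟩
    obtain ⟨sel, a, b⟩ := sound _ _ s h₁ h₂
    classical
    let asg : ℕ → Bool := fun v => decide (∃ o, o < 3 * φ.length ∧ sel o ∧ lit φ o = (true, v))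
    have key : ∀ o, o < 3 * φ.length → sel o → asg (lit φ o).2 = (lit φ o).1 := by
      intro o ho so
      rcases hl : lit φ o with ⟨x, v⟩
      cases x
      · simp only [asg, decide_eq_false_iff_not]
        rintro ⟨t, ht, st, e⟩
        exact a o t ho ht (by simp [conflict, hl, e]) so st
      · simp only [asg, decide_eq_true_eq]
        exact ⟨o, ho, so, hl⟩
    refine ⟨asg, fun cl hcl => ?_⟩
    obtain ⟨c, hc, rfl⟩ := List.getElem_of_mem hcl
    rw [← lit0 φ hc, ← lit1 φ hc, ← lit2 φ hc]
    rcases b c hc with h | h | h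
    · exact Or.inl (key _ (by omega) h)
    · exact Or.inr (Or.inl (key _ (by omega) h))
    · exact Or.inr (Or.inr (key _ (by omega) h))

theorem L1_pf : PF fun φ : CNF3 => L1 (3 * φ.length) := by
  unfold L1 wire cells fill1 wireC cid
  fun_prop

theorem lit_pf {α : Type} [Enc α] {φ : α → CNF3} {o : α → ℕ} (h1 : PF φ) (h2 : PF o) :
    PF fun a => lit (φ a) (o a) := by
  unfold lit
  fun_prop

attribute [local fun_prop] lit_pf in
theorem L2_pf : PF fun φ : CNF3 => L2 φ.length (conflict φ) := by
  unfold L2 cells test clause cid conflict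
  fun_prop

/-- the data of an instance -/
def dat (I : Inst) : ℕ × List ℕ × List ℕ × ℕ := (I.n, I.P₁, I.P₂, I.M)

theorem enc_dat (I : Inst) : encInst I = Enc.enc (dat I) := rfl

theorem hard : NPHard encInst Yes := by
  refine npHard_of_sat3 encInst Yes red (fun φ => (4 * kk (3 * φ.length) + nz (L1 (3 * φ.length)),
    buildI blk1 (4 * kk (3 * φ.length) + 1) (L1 (3 * φ.length)),
    buildI blk2 (4 * kk (3 * φ.length) + 1) (L2 φ.length (conflict φ)),
    2 * kk (3 * φ.length))) ?_ (fun φ => ?_) red_iff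
  · have hk : PF fun φ : CNF3 => kk (3 * φ.length) := by
      unfold kk
      fun_prop
    have h1 := L1_pf
    refine PF.pair ?_ (PF.pair (buildI1_pf (by fun_prop) L1_pf)
      (PF.pair (buildI2_pf (by fun_prop) L2_pf) (by fun_prop)))
    unfold nz
    fun_prop
  · rw [enc_dat, buildI_eq, buildI_eq]
    rfl

/-- the certificate bit of the vertex at a position -/
def bit (P : List ℕ) (y : List Bool) (i : ℕ) : Bool :=
  Nat.blt i P.length && y.getD (P.getD i 0) false

/-- check of domination of a path -/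
def chk (P : List ℕ) (y : List Bool) : Bool :=
  (List.range P.length).all fun i => bit P y i || (Nat.blt 0 i && bit P y (i - 1)) || bit P y (i + 1)

/-- the verifier -/
def ver (d : ℕ × List ℕ × List ℕ × ℕ) (y : List Bool) : Bool :=
  Nat.ble ((List.range d.1).countP fun v => y.getD (v + 1) false) d.2.2.2 &&
    (chk d.2.1 y && chk d.2.2.1 y)

theorem chk_iff (P : List ℕ) (y : List Bool) (D : Finset ℕ)
    (h : ∀ v ∈ P, decide (v ∈ D) = y.getD v false) :
    chk P y = true ↔ Loc false (P.map fun v => decide (v ∈ D)) := by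
  have key : ∀ i : ℕ, (P.map fun v => decide (v ∈ D))[i]? = some true ↔ bit P y i = true := by
    intro i
    unfold bit
    by_cases hi : i < P.length
    · rw [List.getElem?_map, List.getElem?_eq_getElem hi, List.getD_eq_getElem _ _ hi,
        ← h _ (List.getElem_mem hi)]
      simp [Nat.blt_eq, hi]
    · rw [List.getElem?_eq_none (by simpa using hi)]
      simp [Nat.blt_eq, hi]
  unfold chk Loc
  simp only [key, List.all_eq_true, List.mem_range, List.length_map, Bool.or_eq_true,
    Bool.and_eq_true, Nat.blt_eq]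
  refine forall_congr' fun i => imp_congr_right fun _ => ?_
  constructor
  · rintro ((h | ⟨h0, h⟩) | h)
    · exact Or.inl h
    · exact Or.inr (Or.inr (Or.inl ⟨i - 1, by omega, h⟩))
    · exact Or.inr (Or.inr (Or.inr h))
  · rintro (h | h | ⟨j, rfl, h⟩ | h)
    · exact Or.inl (Or.inl h)
    · simp at h
    · exact Or.inl (Or.inr ⟨by omega, h⟩)
    · exact Or.inr h

theorem countP_eq (n : ℕ) (p : ℕ → Bool) :
    (List.range n).countP p = ∑ v ∈ Finset.range n, (p v).toNat := by
  induction n with
  | zero => rfl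
  | succ n ih =>
    rw [List.range_succ, List.countP_append, ih, Finset.sum_range_succ]
    cases h : p n <;> simp [h]

theorem ver_iff (I : Inst) (y : List Bool) (D : Finset ℕ) (hD : D ⊆ Finset.Icc 1 I.n)
    (h : ∀ v ∈ Finset.Icc 1 I.n, decide (v ∈ D) = y.getD v false) :
    ver (dat I) y = true ↔ D.card ≤ I.M ∧ Dominates I.n I.P₁ D ∧ Dominates I.n I.P₂ D := by
  have hmem : ∀ {P : List ℕ}, IsHamPath I.n P → ∀ v ∈ P, v ∈ Finset.Icc 1 I.n := by
    intro P hP v hv
    rw [hP.mem_iff, List.mem_range'_1] at hv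
    rw [Finset.mem_Icc]; omega
  rw [dominates_iff_loc I.ham₁, dominates_iff_loc I.ham₂,
    ← chk_iff _ y D fun v hv => h v (hmem I.ham₁ v hv),
    ← chk_iff _ y D fun v hv => h v (hmem I.ham₂ v hv), card_eq_sum hD]
  unfold ver dat
  simp only [Bool.and_eq_true, Nat.ble_eq]
  rw [countP_eq, Finset.sum_congr rfl fun v hv => ?_]
  rw [h]
  rw [Finset.mem_range] at hv
  rw [Finset.mem_Icc]; omega

theorem inNP : InNP encInst Yes := by
  refine inNP_of_pf encInst Yes dat enc_dat ver ?_ (Polynomial.X + 1) fun I => ?_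
  · unfold ver chk bit
    fun_prop
  · have hn : I.n ≤ (encInst I).length := by
      rw [enc_dat, dat, len_prod, len_nat]
      omega
    simp only [Polynomial.eval_add, Polynomial.eval_X, Polynomial.eval_one]
    constructor
    · rintro ⟨D, hD, h⟩
      refine ⟨(List.range (I.n + 1)).map fun v => decide (v ∈ D), by simp; omega, ?_⟩
      refine (ver_iff I _ D hD fun v hv => ?_).2 h
      rw [Finset.mem_Icc] at hv
      rw [List.getD_eq_getElem _ _ (by simp; omega)]
      simp
    · rintro ⟨y, -, h⟩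
      have hD : (Finset.Icc 1 I.n).filter (fun v => y.getD v false = true) ⊆ Finset.Icc 1 I.n :=
        Finset.filter_subset _ _
      refine ⟨_, hD, (ver_iff I y _ hD fun v hv => ?_).1 h⟩
      rw [Bool.eq_iff_iff, decide_eq_true_eq, Finset.mem_filter]
      exact and_iff_right hv

theorem npComplete : NPComplete encInst Yes := ⟨inNP, hard⟩

end Pool.Agent.Lib.MP_833c47_lc
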