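import Pool.Agent.Lib.MP_833c47_lc.Run
import Pool.Agent.Shared.PolyTime.Typed

-- part Pool.Agent.Lib.MP_833c47_lc.Net
section

/-! Networks of four-vertex gadgets separated by single extra vertices. -/

set_option autoImplicit false

namespace Pool.Agent.Lib.MP_833c47_lc

open Pool.Agent.Shared.PolyTime

/-- the gadget in the first path -/
def blk1 (g : ℕ) : List ℕ := [4 * g + 1, 4 * g + 2, 4 * g + 3, 4 * g + 4]
/-- the gadget in the second path -/
def blk2 (g : ℕ) : List ℕ := [4 * g + 2, 4 * g + 4, 4 * g + 1, 4 * g + 3]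

/-- the path of a sequence of gadgets, each possibly followed by a new extra vertex -/
def build (blk : ℕ → List ℕ) : ℕ → List (ℕ × Bool) → List ℕ
  | _, [] => []
  | base, (g, false) :: L => blk g ++ build blk base L
  | base, (g, true) :: L => blk g ++ base :: build blk (base + 1) L

/-- number of extra vertices -/
def nz (L : List (ℕ × Bool)) : ℕ := L.countP fun it => it.2

/-- the same path, computed by positions -/
def buildI (blk : ℕ → List ℕ) (base : ℕ) (L : List (ℕ × Bool)) : List ℕ :=
  (List.range L.length).flatMap fun i => blk (L.getD i (0, false)).1 ++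
    bif (L.getD i (0, false)).2 then [base + nz (L.take i)] else []

theorem buildI_eq (blk : ℕ → List ℕ) : ∀ (L : List (ℕ × Bool)) (base : ℕ),
    buildI blk base L = build blk base L
  | [], _ => rfl
  | (g, b) :: L, base => by
    have h1 := buildI_eq blk L base
    have h2 := buildI_eq blk L (base + 1)
    unfold buildI at h1 h2 ⊢
    rw [List.length_cons, List.range_succ_eq_map, List.flatMap_cons, List.flatMap_map]
    cases b
    · simp only [build, ← h1]
      simp [nz]
    · simp only [build, ← h2]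
      simp [nz, Nat.add_assoc, Nat.add_comm 1]

theorem buildI1_pf {α : Type} [Enc α] {b : α → ℕ} {L : α → List (ℕ × Bool)} (hb : PF b)
    (hL : PF L) : PF fun a => buildI blk1 (b a) (L a) := by
  unfold buildI nz blk1
  fun_prop

theorem buildI2_pf {α : Type} [Enc α] {b : α → ℕ} {L : α → List (ℕ × Bool)} (hb : PF b)
    (hL : PF L) : PF fun a => buildI blk2 (b a) (L a) := by
  unfold buildI nz blk2
  fun_prop

theorem nz_cons_true (g : ℕ) (L : List (ℕ × Bool)) : nz ((g, true) :: L) = nz L + 1 := by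
  simp [nz]

theorem nz_cons_false (g : ℕ) (L : List (ℕ × Bool)) : nz ((g, false) :: L) = nz L := by
  simp [nz]

theorem length_build {blk : ℕ → List ℕ} (h : ∀ g, (blk g).length = 4) :
    ∀ (L : List (ℕ × Bool)) (base : ℕ), (build blk base L).length = 4 * L.length + nz L
  | [], _ => rfl
  | (g, false) :: L, base => by
    simp only [build, List.length_append, h, length_build h L, nz_cons_false, List.length_cons]
    omega
  | (g, true) :: L, base => by
    simp only [build, List.length_append, h, length_build h L, nz_cons_true, List.length_cons]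
    omega

theorem mem_build_blk {blk : ℕ → List ℕ} {v : ℕ} : ∀ (L : List (ℕ × Bool)) (base : ℕ),
    (∃ it ∈ L, v ∈ blk it.1) → v ∈ build blk base L
  | [], _, h => by simp at h
  | (g, b) :: L, base, ⟨it, h1, h2⟩ => by
    rcases List.mem_cons.1 h1 with rfl | h3
    · cases b <;> simp only [build, List.mem_append] <;> exact Or.inl h2
    · cases b <;> simp only [build, List.mem_append, List.mem_cons]
      · exact Or.inr (mem_build_blk L _ ⟨it, h3, h2⟩)
      · exact Or.inr (Or.inr (mem_build_blk L _ ⟨it, h3, h2⟩))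

theorem mem_build_z {blk : ℕ → List ℕ} {v : ℕ} : ∀ (L : List (ℕ × Bool)) (base : ℕ),
    base ≤ v → v < base + nz L → v ∈ build blk base L
  | [], _, h1, h2 => by simp [nz] at h2; omega
  | (g, false) :: L, base, h1, h2 => by
    simp only [build, List.mem_append]
    exact Or.inr (mem_build_z L _ h1 (by rwa [nz_cons_false] at h2))
  | (g, true) :: L, base, h1, h2 => by
    simp only [build, List.mem_append, List.mem_cons]
    rw [nz_cons_true] at h2
    by_cases h : v = base
    · exact Or.inr (Or.inl h)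
    · exact Or.inr (Or.inr (mem_build_z L _ (by omega) (by omega)))

/-- a list of gadgets uses each gadget once -/
def Full (k : ℕ) (L : List (ℕ × Bool)) : Prop :=
  L.length = k ∧ ∀ g, g < k → ∃ it ∈ L, it.1 = g

theorem Full.perm {k : ℕ} {L : List (ℕ × Bool)} (h : Full k L) :
    (List.range k).Perm (L.map Prod.fst) := by
  refine (List.subperm_of_subset List.nodup_range fun g hg => ?_).perm_of_length_le
    (by simp [h.1])
  obtain ⟨it, h1, h2⟩ := h.2 g (List.mem_range.1 hg)
  exact List.mem_map.2 ⟨it, h1, h2⟩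

theorem Full.lt {k : ℕ} {L : List (ℕ × Bool)} (h : Full k L) : ∀ it ∈ L, it.1 < k :=
  fun it hit => List.mem_range.1 (h.perm.mem_iff.2 (List.mem_map.2 ⟨it, hit, rfl⟩))

theorem Full.nodup {k : ℕ} {L : List (ℕ × Bool)} (h : Full k L) : (L.map Prod.fst).Nodup :=
  h.perm.nodup_iff.1 List.nodup_range

theorem Full.ham {k : ℕ} {L : List (ℕ × Bool)} (h : Full k L) {blk : ℕ → List ℕ}
    (h4 : ∀ g, (blk g).length = 4) (hm : ∀ g i, i < 4 → 4 * g + 1 + i ∈ blk g) :
    IsHamPath (4 * k + nz L) (build blk (4 * k + 1) L) := by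
  refine ((List.subperm_of_subset (List.nodup_range' 1) fun v hv => ?_).perm_of_length_le
    (by rw [length_build h4, h.1]; simp)).symm
  rw [List.mem_range'_1] at hv
  by_cases hv' : v ≤ 4 * k
  · obtain ⟨it, h1, h2⟩ := h.2 ((v - 1) / 4) (by omega)
    refine mem_build_blk L _ ⟨it, h1, ?_⟩
    have := hm it.1 ((v - 1) % 4) (by omega)
    rwa [show 4 * it.1 + 1 + (v - 1) % 4 = v by omega] at this
  · exact mem_build_z L _ (by omega) (by omega)

theorem blk1_mem (g i : ℕ) (h : i < 4) : 4 * g + 1 + i ∈ blk1 g := by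
  simp only [blk1, List.mem_cons]; omega

theorem blk2_mem (g i : ℕ) (h : i < 4) : 4 * g + 1 + i ∈ blk2 g := by
  simp only [blk2, List.mem_cons]; omega

/-- possible consecutive vertices of the first path -/
def R1 (k u v : ℕ) : Prop :=
  (u ≤ 4 * k ∧ u % 4 ≠ 0 ∧ v = u + 1) ∨
  (u ≤ 4 * k ∧ u % 4 = 0 ∧ (4 * k < v ∨ (v % 4 = 1 ∧ v + 3 ≠ u))) ∨
  (4 * k < u ∧ v ≤ 4 * k ∧ v % 4 = 1)

/-- possible consecutive vertices of the second path -/
def R2 (k u v : ℕ) : Prop :=
  (u ≤ 4 * k ∧ u % 4 = 2 ∧ v = u + 2) ∨ (u ≤ 4 * k ∧ u % 4 = 0 ∧ v + 3 = u) ∨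
  (u ≤ 4 * k ∧ u % 4 = 1 ∧ v = u + 2) ∨
  (u ≤ 4 * k ∧ u % 4 = 3 ∧ (4 * k < v ∨ (v % 4 = 2 ∧ v + 1 ≠ u))) ∨
  (4 * k < u ∧ v ≤ 4 * k ∧ v % 4 = 2)

theorem chain1 (k : ℕ) : ∀ (L : List (ℕ × Bool)) (base : ℕ), 4 * k < base →
    (∀ it ∈ L, it.1 < k) → (L.map Prod.fst).Nodup → List.IsChain (R1 k) (build blk1 base L)
  | [], _, _, _, _ => List.isChain_nil
  | (g, b) :: L, base, h1, h2, h3 => by
    have hg : g < k := h2 (g, b) (by simp)
    rw [List.map_cons, List.nodup_cons] at h3
    have ih := fun base' (h : 4 * k < base') =>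
      chain1 k L base' h (fun it hit => h2 it (by simp [hit])) h3.2
    rcases L with _ | ⟨⟨g', b'⟩, L⟩
    · cases b <;> simp [build, blk1, R1] <;> omega
    · have hg' : g' < k := h2 (g', b') (by simp)
      have hne : g ≠ g' := fun h => h3.1 (by simp [h])
      have i1 := ih base h1
      have i2 := ih (base + 1) (by omega)
      cases b <;> cases b' <;>
        simp only [build, blk1, List.cons_append, List.nil_append, List.isChain_cons_cons]
          at i1 i2 ⊢ <;>
        simp only [i1, i2, and_true] <;> and_intros <;> unfold R1 <;> omega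

theorem chain2 (k : ℕ) : ∀ (L : List (ℕ × Bool)) (base : ℕ), 4 * k < base →
    (∀ it ∈ L, it.1 < k) → (L.map Prod.fst).Nodup → List.IsChain (R2 k) (build blk2 base L)
  | [], _, _, _, _ => List.isChain_nil
  | (g, b) :: L, base, h1, h2, h3 => by
    have hg : g < k := h2 (g, b) (by simp)
    rw [List.map_cons, List.nodup_cons] at h3
    have ih := fun base' (h : 4 * k < base') =>
      chain2 k L base' h (fun it hit => h2 it (by simp [hit])) h3.2
    rcases L with _ | ⟨⟨g', b'⟩, L⟩
    · cases b <;> simp [build, blk2, R2] <;> omega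
    · have hg' : g' < k := h2 (g', b') (by simp)
      have hne : g ≠ g' := fun h => h3.1 (by simp [h])
      have i1 := ih base h1
      have i2 := ih (base + 1) (by omega)
      cases b <;> cases b' <;>
        simp only [build, blk2, List.cons_append, List.nil_append, List.isChain_cons_cons]
          at i1 i2 ⊢ <;>
        simp only [i1, i2, and_true] <;> and_intros <;> unfold R2 <;> omega

theorem adj_of_chain {R : ℕ → ℕ → Prop} {P : List ℕ} (h : List.IsChain R P) {u v : ℕ}
    (ha : PathAdj P u v) : R u v ∨ R v u := by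
  rw [List.isChain_iff_getElem] at h
  obtain ⟨i, ⟨h1, h2⟩ | ⟨h1, h2⟩⟩ := ha
  · obtain ⟨hi, rfl⟩ := List.getElem?_eq_some_iff.1 h1
    obtain ⟨hi', rfl⟩ := List.getElem?_eq_some_iff.1 h2
    exact Or.inl (h i hi')
  · obtain ⟨hi, rfl⟩ := List.getElem?_eq_some_iff.1 h1
    obtain ⟨hi', rfl⟩ := List.getElem?_eq_some_iff.1 h2
    exact Or.inr (h i hi')

theorem disj_build {k : ℕ} {L₁ L₂ : List (ℕ × Bool)} (h₁ : Full k L₁) (h₂ : Full k L₂) (u v : ℕ)
    (a₁ : PathAdj (build blk1 (4 * k + 1) L₁) u v) :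
    ¬ PathAdj (build blk2 (4 * k + 1) L₂) u v := by
  intro a₂
  have b₁ := adj_of_chain (chain1 k L₁ _ (by omega) h₁.lt h₁.nodup) a₁
  have b₂ := adj_of_chain (chain2 k L₂ _ (by omega) h₂.lt h₂.nodup) a₂
  simp only [R1, R2] at b₁ b₂
  omega

/-- the six ways to choose two of the four vertices -/
inductive St : Type
  | A | B | C | D | E | F

/-- the chosen vertices -/
def St.bits : St → Bool × Bool × Bool × Bool
  | .A => (true, false, false, true)
  | .B => (false, true, true, false)
  | .C => (true, true, false, false)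
  | .D => (false, false, true, true)
  | .E => (true, false, true, false)
  | .F => (false, true, false, true)

/-- left gap in the first path -/
def St.l1 : St → ℕ | .A => 0 | .B => 1 | .C => 0 | .D => 2 | .E => 0 | .F => 1
/-- right gap in the first path -/
def St.r1 : St → ℕ | .A => 0 | .B => 1 | .C => 2 | .D => 0 | .E => 1 | .F => 0
/-- left gap in the second path -/
def St.l2 : St → ℕ | .A => 1 | .B => 0 | .C => 0 | .D => 1 | .E => 2 | .F => 0
/-- right gap in the second path -/
def St.r2 : St → ℕ | .A => 1 | .B => 0 | .C => 1 | .D => 0 | .E => 0 | .F => 2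

/-- the run at the level of the gadgets -/
def RunI (l r : ℕ → ℕ) : ℕ → List (ℕ × Bool) → ℕ → Prop
  | a, [], c => a ≤ c
  | a, (g, b) :: L, c => a + l g ≤ 2 ∧ RunI l r (r g + b.toNat) L c

/-- the four bits of a gadget -/
def fb (f : ℕ → Bool) (g : ℕ) : Bool × Bool × Bool × Bool :=
  (f (4 * g + 1), f (4 * g + 2), f (4 * g + 3), f (4 * g + 4))

theorem run_build1 (f : ℕ → Bool) (s : ℕ → St) (c : ℕ) : ∀ (L : List (ℕ × Bool)) (base a : ℕ),
    (∀ it ∈ L, fb f it.1 = (s it.1).bits) → (∀ v, base ≤ v → f v = false) →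
    (Run a ((build blk1 base L).map f) c ↔ RunI (fun g => (s g).l1) (fun g => (s g).r1) a L c)
  | [], _, _, _, _ => Iff.rfl
  | (g, b) :: L, base, a, h1, h2 => by
    have h3 := h1 (g, b) (by simp)
    have i1 := fun a => run_build1 f s c L base a (fun it hit => h1 it (by simp [hit])) h2
    have i2 := fun a => run_build1 f s c L (base + 1) a (fun it hit => h1 it (by simp [hit]))
      (fun v hv => h2 v (by omega))
    have h4 := h2 base le_rfl
    simp only [fb] at h3
    cases b <;> rcases hs : s g with _ | _ | _ | _ | _ | _ <;> rw [hs] at h3 <;>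
      simp only [St.bits, Prod.mk.injEq] at h3 <;>
      simp [build, blk1, RunI, Run, h3, h4, hs, St.l1, St.r1, i1, i2]

theorem run_build2 (f : ℕ → Bool) (s : ℕ → St) (c : ℕ) : ∀ (L : List (ℕ × Bool)) (base a : ℕ),
    (∀ it ∈ L, fb f it.1 = (s it.1).bits) → (∀ v, base ≤ v → f v = false) →
    (Run a ((build blk2 base L).map f) c ↔ RunI (fun g => (s g).l2) (fun g => (s g).r2) a L c)
  | [], _, _, _, _ => Iff.rfl
  | (g, b) :: L, base, a, h1, h2 => by
    have h3 := h1 (g, b) (by simp)
    have i1 := fun a => run_build2 f s c L base a (fun it hit => h1 it (by simp [hit])) h2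
    have i2 := fun a => run_build2 f s c L (base + 1) a (fun it hit => h1 it (by simp [hit]))
      (fun v hv => h2 v (by omega))
    have h4 := h2 base le_rfl
    simp only [fb] at h3
    cases b <;> rcases hs : s g with _ | _ | _ | _ | _ | _ <;> rw [hs] at h3 <;>
      simp only [St.bits, Prod.mk.injEq] at h3 <;>
      simp [build, blk2, RunI, Run, h3, h4, hs, St.l2, St.r2, i1, i2]

theorem Run.suffix {c : ℕ} : ∀ (l m : List Bool) (a : ℕ), Run a (l ++ m) c → ∃ a', Run a' m c
  | [], _, a, h => ⟨a, h⟩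
  | true :: l, m, _, h => Run.suffix l m _ h.2
  | false :: l, m, _, h => Run.suffix l m _ h

theorem Run.window {c : ℕ} (hc : c ≤ 2) {x y z w : Bool} {m : List Bool} {a : ℕ}
    (h : Run a (x :: y :: z :: w :: m) c) :
    (x = true ∨ y = true ∨ z = true) ∧ (y = true ∨ z = true ∨ w = true) := by
  cases x <;> cases y <;> cases z <;> cases w <;> simp only [Run] at h <;> simp <;>
    first
      | omega
      | (have := Run.le_two hc h; omega)
      | (have := Run.le_two hc h.2; omega)

theorem windows (blk : ℕ → List ℕ) (f : ℕ → Bool) {c : ℕ} : ∀ (L : List (ℕ × Bool)) (base a : ℕ),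
    Run a ((build blk base L).map f) c → ∀ it ∈ L, ∃ a' m, Run a' ((blk it.1).map f ++ m) c
  | [], _, _, _, it, hit => by simp at hit
  | (g, b) :: L, base, a, h, it, hit => by
    rcases List.mem_cons.1 hit with rfl | hit'
    · cases b <;> simp only [build, List.map_append] at h <;> exact ⟨_, _, h⟩
    · cases b <;> simp only [build, List.map_append] at h
      · obtain ⟨a', h'⟩ := Run.suffix _ _ _ h
        exact windows blk f L _ _ h' it hit'
      · obtain ⟨a', h'⟩ := Run.suffix _ _ _ h
        obtain ⟨a'', h''⟩ := Run.suffix [f base] _ _ h'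
        exact windows blk f L _ _ h'' it hit'

/-- number of chosen vertices in a gadget -/
def cnt4 (f : ℕ → Bool) (g : ℕ) : ℕ :=
  (f (4 * g + 1)).toNat + (f (4 * g + 2)).toNat + (f (4 * g + 3)).toNat + (f (4 * g + 4)).toNat

theorem sum_cnt4 (f : ℕ → Bool) (k : ℕ) :
    ∑ v ∈ Finset.range (4 * k), (f (v + 1)).toNat = ∑ g ∈ Finset.range k, cnt4 f g := by
  induction k with
  | zero => rfl
  | succ k ih =>
    rw [show 4 * (k + 1) = 4 * k + 1 + 1 + 1 + 1 by ring]
    simp only [Finset.sum_range_succ, ih]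
    simp only [cnt4, Nat.add_assoc]

theorem card_eq_sum {D : Finset ℕ} {n : ℕ} (h : D ⊆ Finset.Icc 1 n) :
    D.card = ∑ v ∈ Finset.range n, (decide (v + 1 ∈ D)).toNat := by
  have e : D = ((Finset.range n).filter fun v => v + 1 ∈ D).image (· + 1) := by
    ext v
    simp only [Finset.mem_image, Finset.mem_filter, Finset.mem_range]
    constructor
    · intro hv
      have := Finset.mem_Icc.1 (h hv)
      exact ⟨v - 1, ⟨by omega, by rwa [show v - 1 + 1 = v by omega]⟩, by omega⟩
    · rintro ⟨a, ⟨-, h2⟩, rfl⟩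
      exact h2
  conv_lhs => rw [e]
  rw [Finset.card_image_of_injective _ (add_left_injective 1), Finset.card_filter]
  refine Finset.sum_congr rfl fun v _ => ?_
  by_cases hv : v + 1 ∈ D <;> simp [hv]

theorem exists_st (f : ℕ → Bool) (g : ℕ) (h : cnt4 f g = 2) : ∃ s : St, fb f g = s.bits := by
  unfold cnt4 at h
  unfold fb
  generalize f (4 * g + 1) = a at *
  generalize f (4 * g + 2) = b at *
  generalize f (4 * g + 3) = c at *
  generalize f (4 * g + 4) = d at *
  cases a <;> cases b <;> cases c <;> cases d <;> simp at h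
  exacts [⟨.D, rfl⟩, ⟨.F, rfl⟩, ⟨.B, rfl⟩, ⟨.A, rfl⟩, ⟨.E, rfl⟩, ⟨.C, rfl⟩]

/-- the instance of a network -/
def netInst (k : ℕ) (L₁ L₂ : List (ℕ × Bool)) (h₁ : Full k L₁) (h₂ : Full k L₂)
    (hz : nz L₂ = nz L₁) : Inst where
  n := 4 * k + nz L₁
  P₁ := build blk1 (4 * k + 1) L₁
  P₂ := build blk2 (4 * k + 1) L₂
  M := 2 * k
  ham₁ := h₁.ham (fun _ => rfl) blk1_mem
  ham₂ := hz ▸ h₂.ham (fun _ => rfl) blk2_mem
  disj := disj_build h₁ h₂

/-- selecting one of four bits -/
def sel4 (x : Bool × Bool × Bool × Bool) (i : ℕ) : Bool :=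
  if i = 0 then x.1 else if i = 1 then x.2.1 else if i = 2 then x.2.2.1 else x.2.2.2

theorem net_iff (k : ℕ) (L₁ L₂ : List (ℕ × Bool)) (h₁ : Full k L₁) (h₂ : Full k L₂)
    (hz : nz L₂ = nz L₁) : Yes (netInst k L₁ L₂ h₁ h₂ hz) ↔ ∃ s : ℕ → St,
      RunI (fun g => (s g).l1) (fun g => (s g).r1) 1 L₁ 1 ∧
      RunI (fun g => (s g).l2) (fun g => (s g).r2) 1 L₂ 1 := by
  have ham₁ := (netInst k L₁ L₂ h₁ h₂ hz).ham₁
  have ham₂ := (netInst k L₁ L₂ h₁ h₂ hz).ham₂
  constructor
  · rintro ⟨D, hD, hc, d₁, d₂⟩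
    rw [dominates_iff_run ham₁] at d₁
    rw [dominates_iff_run ham₂] at d₂
    simp only [netInst] at hD hc d₁ d₂
    set f : ℕ → Bool := fun v => decide (v ∈ D) with hf
    have two : ∀ g, g < k → 2 ≤ cnt4 f g := by
      intro g hg
      obtain ⟨it₁, m₁, rfl⟩ := h₁.2 g hg
      obtain ⟨it₂, m₂, e⟩ := h₂.2 _ hg
      obtain ⟨a₁, r₁, w₁⟩ := windows blk1 f L₁ _ _ d₁ it₁ m₁
      obtain ⟨a₂, r₂, w₂⟩ := windows blk2 f L₂ _ _ d₂ it₂ m₂
      rw [e] at w₂
      have v₁ := Run.window (by omega) w₁
      have v₂ := Run.window (by omega) w₂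
      unfold cnt4
      generalize f (4 * it₁.1 + 1) = a at *
      generalize f (4 * it₁.1 + 2) = b at *
      generalize f (4 * it₁.1 + 3) = c at *
      generalize f (4 * it₁.1 + 4) = d at *
      cases a <;> cases b <;> cases c <;> cases d <;> simp at v₁ v₂ ⊢
    rw [card_eq_sum hD, Finset.sum_range_add, sum_cnt4 f] at hc
    have s1 : ∑ _g ∈ Finset.range k, 2 ≤ ∑ g ∈ Finset.range k, cnt4 f g :=
      Finset.sum_le_sum fun g hg => two g (Finset.mem_range.1 hg)
    have s2 : ∑ _g ∈ Finset.range k, 2 = 2 * k := by simp [Nat.mul_comm]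
    have eq2 : ∀ g, g < k → cnt4 f g = 2 := fun g hg =>
      ((Finset.sum_eq_sum_iff_of_le fun g hg => two g (Finset.mem_range.1 hg)).1
        (by omega) g (Finset.mem_range.2 hg)).symm
    have s3 : ∑ x ∈ Finset.range (nz L₁), (decide (4 * k + x + 1 ∈ D)).toNat = 0 := by omega
    have hz0 : ∀ v, 4 * k + 1 ≤ v → f v = false := by
      intro v hv
      by_contra hh
      have hv' : v ∈ D := by simpa [hf] using hh
      have := Finset.mem_Icc.1 (hD hv')
      have h3 := Finset.sum_eq_zero_iff.1 s3 (v - 1 - 4 * k) (Finset.mem_range.2 (by omega))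
      rw [show 4 * k + (v - 1 - 4 * k) + 1 = v by omega] at h3
      simp [hv'] at h3
    have hex : ∀ g, ∃ s : St, g < k → fb f g = s.bits := fun g => by
      by_cases hg : g < k
      · obtain ⟨s, hs⟩ := exists_st f g (eq2 g hg)
        exact ⟨s, fun _ => hs⟩
      · exact ⟨.A, fun h => absurd h hg⟩
    choose s hs using hex
    exact ⟨s, (run_build1 f s 1 L₁ _ 1 (fun it hit => hs _ (h₁.lt it hit)) hz0).1 d₁,
      (run_build2 f s 1 L₂ _ 1 (fun it hit => hs _ (h₂.lt it hit)) hz0).1 d₂⟩
  · rintro ⟨s, r₁, r₂⟩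
    let D : Finset ℕ := (Finset.Icc 1 (4 * k)).filter
      fun v => sel4 (s ((v - 1) / 4)).bits ((v - 1) % 4) = true
    have hD : D ⊆ Finset.Icc 1 (4 * k + nz L₁) := fun v hv => by
      have := Finset.mem_Icc.1 (Finset.mem_filter.1 hv).1
      rw [Finset.mem_Icc]; omega
    have hD' : D ⊆ Finset.Icc 1 (4 * k) := Finset.filter_subset _ _
    set f : ℕ → Bool := fun v => decide (v ∈ D) with hf
    have hb : ∀ g i, g < k → i < 4 → f (4 * g + (i + 1)) = sel4 (s g).bits i := by
      intro g i hg hi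
      have e1 : (4 * g + (i + 1) - 1) / 4 = g := by omega
      have e2 : (4 * g + (i + 1) - 1) % 4 = i := by omega
      have e3 : 1 ≤ 4 * g + (i + 1) ∧ 4 * g + (i + 1) ≤ 4 * k := by omega
      simp only [hf, D, Finset.mem_filter, Finset.mem_Icc, e1, e2, e3, true_and]
      simp
    have hs : ∀ g, g < k → fb f g = (s g).bits := fun g hg => by
      unfold fb
      rw [hb g 0 hg (by omega), hb g 1 hg (by omega), hb g 2 hg (by omega), hb g 3 hg (by omega)]
      rfl
    have hz0 : ∀ v, 4 * k + 1 ≤ v → f v = false := fun v hv => by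
      have : v ∉ D := fun h => by have := Finset.mem_Icc.1 (hD' h); omega
      simpa [hf] using this
    refine ⟨D, hD, ?_, ?_, ?_⟩
    · rw [card_eq_sum hD', sum_cnt4 f]
      have : ∀ g ∈ Finset.range k, cnt4 f g = 2 := fun g hg => by
        have h := hs g (Finset.mem_range.1 hg)
        unfold fb at h
        unfold cnt4
        rcases h' : s g with _ | _ | _ | _ | _ | _ <;> rw [h'] at h <;>
          simp only [St.bits, Prod.mk.injEq] at h <;> simp [h]
      rw [Finset.sum_congr rfl this]
      simp [netInst, Nat.mul_comm]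
    · rw [dominates_iff_run ham₁]
      exact (run_build1 f s 1 L₁ _ 1 (fun it hit => hs _ (h₁.lt it hit)) hz0).2 r₁
    · rw [dominates_iff_run ham₂]
      exact (run_build2 f s 1 L₂ _ 1 (fun it hit => hs _ (h₂.lt it hit)) hz0).2 r₂

end Pool.Agent.Lib.MP_833c47_lc
end

-- part Pool.Agent.Lib.MP_833c47_lc.Red
section

/-! The network of a selection problem. -/

set_option autoImplicit false

namespace Pool.Agent.Lib.MP_833c47_lc

theorem RunI.le_two {l r : ℕ → ℕ} {c : ℕ} (hc : c ≤ 2) :
    ∀ {L : List (ℕ × Bool)} {a : ℕ}, RunI l r a L c → a ≤ 2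
  | [], _, h => le_trans h hc
  | (_, _) :: _, _, h => le_trans (Nat.le_add_right _ _) h.1

theorem RunI.flatMap_inv {l r : ℕ → ℕ} {c : ℕ} (P : ℕ → Prop) (f : ℕ → List (ℕ × Bool)) :
    ∀ (xs : List ℕ), (∀ x ∈ xs, ∀ a Z, P a → RunI l r a (f x ++ Z) c → ∃ a', P a' ∧ RunI l r a' Z c) →
    ∀ a Z, P a → RunI l r a (xs.flatMap f ++ Z) c → (∃ a', P a' ∧ RunI l r a' Z c) ∧
      ∀ x ∈ xs, ∃ a' Z', P a' ∧ RunI l r a' (f x ++ Z') c
  | [], _, a, Z, ha, h => ⟨⟨a, ha, h⟩, fun x hx => by simp at hx⟩
  | x :: xs, step, a, Z, ha, h => by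
    rw [List.flatMap_cons, List.append_assoc] at h
    obtain ⟨a', ha', h'⟩ := step x (by simp) a _ ha h
    obtain ⟨i1, i2⟩ := RunI.flatMap_inv P f xs (fun y hy => step y (by simp [hy])) a' Z ha' h'
    refine ⟨i1, fun y hy => ?_⟩
    rcases List.mem_cons.1 hy with rfl | hy'
    · exact ⟨a, _, ha, h⟩
    · exact i2 y hy'

theorem RunI.flatMap_of {l r : ℕ → ℕ} {c : ℕ} (P : ℕ → Prop) (f : ℕ → List (ℕ × Bool)) :
    ∀ (xs : List ℕ), (∀ x ∈ xs, ∀ a Z, P a → (∀ a', P a' → RunI l r a' Z c) →
      RunI l r a (f x ++ Z) c) →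
    ∀ a Z, P a → (∀ a', P a' → RunI l r a' Z c) → RunI l r a (xs.flatMap f ++ Z) c
  | [], _, a, Z, ha, h => h a ha
  | x :: xs, step, a, Z, ha, h => by
    rw [List.flatMap_cons, List.append_assoc]
    exact step x (by simp) a _ ha fun a' ha' =>
      RunI.flatMap_of P f xs (fun y hy => step y (by simp [hy])) a' Z ha' h

/-- a list indexed by the cells of a square -/
def cells (N : ℕ) (f : ℕ → ℕ → List (ℕ × Bool)) : List (ℕ × Bool) :=
  (List.range N).flatMap fun o => (List.range N).flatMap fun t => f o t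

theorem RunI.cells_inv {l r : ℕ → ℕ} {c : ℕ} (P : ℕ → Prop) (N : ℕ)
    (f : ℕ → ℕ → List (ℕ × Bool))
    (step : ∀ o t, o < N → t < N → ∀ a Z, P a → RunI l r a (f o t ++ Z) c →
      ∃ a', P a' ∧ RunI l r a' Z c) (a : ℕ) (Z : List (ℕ × Bool)) (ha : P a)
    (h : RunI l r a (cells N f ++ Z) c) : (∃ a', P a' ∧ RunI l r a' Z c) ∧
      ∀ o t, o < N → t < N → ∃ a' Z', P a' ∧ RunI l r a' (f o t ++ Z') c := by
  have inner := fun o (ho : o < N) => RunI.flatMap_inv P (f o) (List.range N)
    (fun t ht => step o t ho (List.mem_range.1 ht))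
  obtain ⟨i1, i2⟩ := RunI.flatMap_inv P (fun o => (List.range N).flatMap fun t => f o t)
    (List.range N) (fun o ho a Z ha h => (inner o (List.mem_range.1 ho) a Z ha h).1) a Z ha h
  refine ⟨i1, fun o t ho ht => ?_⟩
  obtain ⟨a', Z', ha', h'⟩ := i2 o (List.mem_range.2 ho)
  exact (inner o ho a' Z' ha' h').2 t (List.mem_range.2 ht)

theorem RunI.cells_of {l r : ℕ → ℕ} {c : ℕ} (P : ℕ → Prop) (N : ℕ)
    (f : ℕ → ℕ → List (ℕ × Bool))
    (step : ∀ o t, o < N → t < N → ∀ a Z, P a → (∀ a', P a' → RunI l r a' Z c) →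
      RunI l r a (f o t ++ Z) c) (a : ℕ) (Z : List (ℕ × Bool)) (ha : P a)
    (h : ∀ a', P a' → RunI l r a' Z c) : RunI l r a (cells N f ++ Z) c :=
  RunI.flatMap_of P (fun o => (List.range N).flatMap fun t => f o t) (List.range N)
    (fun o ho a Z ha h => RunI.flatMap_of P (f o) (List.range N)
      (fun t ht => step o t (List.mem_range.1 ho) (List.mem_range.1 ht)) a Z ha h) a Z ha h

theorem nz_append (L M : List (ℕ × Bool)) : nz (L ++ M) = nz L + nz M := by
  simp [nz]

theorem length_fm (f : ℕ → List (ℕ × Bool)) (c : ℕ) (h : ∀ x, (f x).length = c) (N : ℕ) :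
    ((List.range N).flatMap f).length = N * c := by
  induction N with
  | zero => simp
  | succ N ih => rw [List.range_succ, List.flatMap_append, List.length_append, ih]; simp [h]; ring

theorem nz_fm (f : ℕ → List (ℕ × Bool)) (c : ℕ) (h : ∀ x, nz (f x) = c) (N : ℕ) :
    nz ((List.range N).flatMap f) = N * c := by
  induction N with
  | zero => simp [nz]
  | succ N ih => rw [List.range_succ, List.flatMap_append, nz_append, ih]; simp [h]; ring

theorem length_cells (f : ℕ → ℕ → List (ℕ × Bool)) (c : ℕ) (h : ∀ x y, (f x y).length = c)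
    (N : ℕ) : (cells N f).length = N * (N * c) :=
  length_fm _ _ (fun o => length_fm _ _ (h o) N) N

theorem nz_cells (f : ℕ → ℕ → List (ℕ × Bool)) (c : ℕ) (h : ∀ x y, nz (f x y) = c)
    (N : ℕ) : nz (cells N f) = N * (N * c) :=
  nz_fm _ _ (fun o => nz_fm _ _ (h o) N) N

theorem mem_cells {N : ℕ} {f : ℕ → ℕ → List (ℕ × Bool)} {o t : ℕ} (ho : o < N) (ht : t < N)
    {it : ℕ × Bool} (h : it ∈ f o t) : it ∈ cells N f :=
  List.mem_flatMap.2 ⟨o, List.mem_range.2 ho, List.mem_flatMap.2 ⟨t, List.mem_range.2 ht, h⟩⟩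

/-- the gadgets of a cell -/
def cid (N o t i : ℕ) : ℕ := 3 * N + (7 * (o * N + t) + i)

/-- a piece of a wire -/
def wireC (N o t : ℕ) : List (ℕ × Bool) :=
  [(cid N o t 0, true), (cid N o t 1, true), (cid N o t 2, true), (cid N o t 3, true)]

/-- a wire -/
def wire (N o : ℕ) : List (ℕ × Bool) :=
  (3 * o + 1, true) :: ((List.range N).flatMap (wireC N o) ++ [(3 * o, true)])

/-- filling in the first path -/
def fill1 (N o t : ℕ) : List (ℕ × Bool) :=
  [(cid N o t 4, true), (cid N o t 6, true), (cid N o t 5, false)]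

/-- the first path -/
def L1 (N : ℕ) : List (ℕ × Bool) :=
  (List.range N).flatMap (wire N) ++
    ((List.range N).flatMap (fun o => [(3 * o + 2, false)]) ++ cells N (fill1 N))

/-- the test of a pair of wires -/
def test (N : ℕ) (b : Bool) (o t : ℕ) : List (ℕ × Bool) :=
  bif b then
    [(cid N o t 1, true), (cid N o t 0, true), (cid N t o 2, true), (cid N t o 3, true),
      (cid N o t 5, true), (cid N o t 4, true)]
  else
    [(cid N o t 1, true), (cid N o t 0, true), (cid N o t 5, true), (cid N t o 2, true),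
      (cid N t o 3, true), (cid N o t 4, true)]

/-- the test of a clause -/
def clause (c : ℕ) : List (ℕ × Bool) :=
  [(3 * (3 * c) + 2, true), (3 * (3 * c + 1) + 1, true), (3 * (3 * c) + 1, false),
    (3 * (3 * c + 2) + 1, true), (3 * (3 * c + 1) + 2, true), (3 * (3 * c), false),
    (3 * (3 * c + 1), true), (3 * (3 * c + 2) + 2, true), (3 * (3 * c + 2), false)]

/-- the second path -/
def L2 (m : ℕ) (cf : ℕ → ℕ → Bool) : List (ℕ × Bool) :=
  cells (3 * m) (fun o t => test (3 * m) (cf o t) o t) ++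
    ((List.range m).flatMap clause ++ cells (3 * m) fun o t => [(cid (3 * m) o t 6, false)])

/-- number of gadgets -/
def kk (N : ℕ) : ℕ := 3 * N + 7 * (N * N)

theorem exists_cid {N g : ℕ} (h1 : 3 * N ≤ g) (h2 : g < kk N) :
    ∃ o t i, o < N ∧ t < N ∧ i < 7 ∧ g = cid N o t i := by
  unfold kk at h2
  have hN : 0 < N := by
    rcases N with _ | N
    · simp at h2
    · omega
  have hq : (g - 3 * N) / 7 < N * N := by omega
  refine ⟨(g - 3 * N) / 7 / N, (g - 3 * N) / 7 % N, (g - 3 * N) % 7,
    Nat.div_lt_of_lt_mul hq, Nat.mod_lt _ hN, Nat.mod_lt _ (by omega), ?_⟩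
  unfold cid
  rw [Nat.div_add_mod']
  omega

theorem full1 (N : ℕ) : Full (kk N) (L1 N) := by
  constructor
  · unfold L1 kk
    rw [List.length_append, List.length_append, length_fm (wire N) (N * 4 + 2), length_fm _ 1,
      length_cells _ 3]
    · ring
    · intro x y; rfl
    · intro x; rfl
    · intro x
      unfold wire
      rw [List.length_cons, List.length_append, length_fm _ 4 fun _ => rfl]
      rfl
  · intro g hg
    unfold L1
    by_cases h : g < 3 * N
    · have ho : g / 3 ∈ List.range N := List.mem_range.2 (by omega)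
      have h3 : g = 3 * (g / 3) ∨ g = 3 * (g / 3) + 1 ∨ g = 3 * (g / 3) + 2 := by omega
      rcases h3 with h3 | h3 | h3
      · exact ⟨(3 * (g / 3), true), List.mem_append_left _
          (List.mem_flatMap.2 ⟨_, ho, by simp [wire]⟩), h3.symm⟩
      · exact ⟨(3 * (g / 3) + 1, true), List.mem_append_left _
          (List.mem_flatMap.2 ⟨_, ho, by simp [wire]⟩), h3.symm⟩
      · exact ⟨(3 * (g / 3) + 2, false), List.mem_append_right _ (List.mem_append_left _
          (List.mem_flatMap.2 ⟨_, ho, by simp⟩)), h3.symm⟩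
    · obtain ⟨o, t, i, ho, ht, hi, rfl⟩ := exists_cid (by omega) hg
      have w : ∀ it ∈ wireC N o t, it ∈ (List.range N).flatMap (wire N) := fun it hit =>
        List.mem_flatMap.2 ⟨o, List.mem_range.2 ho, List.mem_cons_of_mem _
          (List.mem_append_left _ (List.mem_flatMap.2 ⟨t, List.mem_range.2 ht, hit⟩))⟩
      have w' : ∀ it ∈ fill1 N o t, it ∈ cells N (fill1 N) := fun it hit => mem_cells ho ht hit
      interval_cases i
      · exact ⟨(cid N o t 0, true), List.mem_append_left _ (w _ (by simp [wireC])), rfl⟩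
      · exact ⟨(cid N o t 1, true), List.mem_append_left _ (w _ (by simp [wireC])), rfl⟩
      · exact ⟨(cid N o t 2, true), List.mem_append_left _ (w _ (by simp [wireC])), rfl⟩
      · exact ⟨(cid N o t 3, true), List.mem_append_left _ (w _ (by simp [wireC])), rfl⟩
      · exact ⟨(cid N o t 4, true), List.mem_append_right _
          (List.mem_append_right _ (w' _ (by simp [fill1]))), rfl⟩
      · exact ⟨(cid N o t 5, false), List.mem_append_right _
          (List.mem_append_right _ (w' _ (by simp [fill1]))), rfl⟩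
      · exact ⟨(cid N o t 6, true), List.mem_append_right _
          (List.mem_append_right _ (w' _ (by simp [fill1]))), rfl⟩

theorem full2 (m : ℕ) (cf : ℕ → ℕ → Bool) : Full (kk (3 * m)) (L2 m cf) := by
  constructor
  · unfold L2 kk
    rw [List.length_append, List.length_append, length_cells _ 6, length_fm _ 9,
      length_cells _ 1]
    · ring
    · intro x y; rfl
    · intro x; rfl
    · intro x y
      cases cf x y <;> rfl
  · intro g hg
    unfold L2
    by_cases h : g < 3 * (3 * m)
    · have ho : g / 9 ∈ List.range m := List.mem_range.2 (by omega)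
      have : ∃ it ∈ clause (g / 9), it.1 = g := by
        simp only [clause, List.mem_cons, List.not_mem_nil, or_false, exists_eq_or_imp,
          exists_eq_left]
        omega
      obtain ⟨it, h1, h2⟩ := this
      exact ⟨it, List.mem_append_right _ (List.mem_append_left _
        (List.mem_flatMap.2 ⟨_, ho, h1⟩)), h2⟩
    · obtain ⟨o, t, i, ho, ht, hi, rfl⟩ := exists_cid (by omega) hg
      interval_cases i
      · exact ⟨(cid (3 * m) o t 0, true), List.mem_append_left _ (mem_cells ho ht
          (by cases cf o t <;> simp [test])), rfl⟩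
      · exact ⟨(cid (3 * m) o t 1, true), List.mem_append_left _ (mem_cells ho ht
          (by cases cf o t <;> simp [test])), rfl⟩
      · exact ⟨(cid (3 * m) o t 2, true), List.mem_append_left _ (mem_cells ht ho
          (by cases cf t o <;> simp [test])), rfl⟩
      · exact ⟨(cid (3 * m) o t 3, true), List.mem_append_left _ (mem_cells ht ho
          (by cases cf t o <;> simp [test])), rfl⟩
      · exact ⟨(cid (3 * m) o t 4, true), List.mem_append_left _ (mem_cells ho ht
          (by cases cf o t <;> simp [test])), rfl⟩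
      · exact ⟨(cid (3 * m) o t 5, true), List.mem_append_left _ (mem_cells ho ht
          (by cases cf o t <;> simp [test])), rfl⟩
      · exact ⟨(cid (3 * m) o t 6, false), List.mem_append_right _ (List.mem_append_right _
          (mem_cells ho ht (by simp))), rfl⟩

theorem nz_L (m : ℕ) (cf : ℕ → ℕ → Bool) : nz (L2 m cf) = nz (L1 (3 * m)) := by
  unfold L1 L2
  rw [nz_append, nz_append, nz_append, nz_append, nz_cells _ 6, nz_fm _ 6, nz_cells _ 0,
    nz_fm (wire (3 * m)) (3 * m * 4 + 2), nz_fm _ 0, nz_cells _ 2]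
  · ring
  · intro x y; rfl
  · intro x; rfl
  · intro x
    unfold wire
    rw [nz_cons_true, nz_append, nz_fm _ 4 fun _ => rfl]
    rfl
  · intro x y; rfl
  · intro x; rfl
  · intro x y
    cases cf x y <;> rfl

theorem St.ab (x : St) (h1 : x.l1 ≤ 1) (h2 : x.r1 ≤ 1) (h3 : x.l2 ≤ 1) (h4 : x.r2 ≤ 1) :
    x.r1 = x.l1 ∧ x.l1 + x.l2 = 1 ∧ x.r2 = x.l2 := by
  cases x <;> simp_all [St.l1, St.r1, St.l2, St.r2]

theorem St.af (x : St) (h1 : x.l1 ≤ 1) (h2 : x.r1 = 0) : x.l2 + x.r2 = 2 ∧ 1 ≤ x.r2 := by
  cases x <;> simp_all [St.l1, St.r1, St.l2, St.r2]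

theorem sound (m : ℕ) (cf : ℕ → ℕ → Bool) (s : ℕ → St)
    (h₁ : RunI (fun g => (s g).l1) (fun g => (s g).r1) 1 (L1 (3 * m)) 1)
    (h₂ : RunI (fun g => (s g).l2) (fun g => (s g).r2) 1 (L2 m cf) 1) :
    ∃ sel : ℕ → Prop, (∀ o t, o < 3 * m → t < 3 * m → cf o t = true → sel o → ¬ sel t) ∧
      ∀ c, c < m → sel (3 * c) ∨ sel (3 * c + 1) ∨ sel (3 * c + 2) := by
  set N := 3 * m with hN
  -- the second path
  obtain ⟨⟨a₂, -, h₂'⟩, T⟩ := RunI.cells_inv (fun a => 1 ≤ a) N
    (fun o t => test N (cf o t) o t) (fun o t _ _ a Z _ h => by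
      cases hc : cf o t <;> rw [hc] at h <;>
        simp only [test, cond, List.cons_append, List.nil_append, RunI] at h <;>
        exact ⟨_, by simp, h.2.2.2.2.2.2⟩) 1 _ le_rfl h₂
  have T' : ∀ o t, o < N → t < N →
      (s (cid N o t 1)).l2 ≤ 1 ∧ (s (cid N o t 1)).r2 + (s (cid N o t 0)).l2 ≤ 1 ∧
      (s (cid N o t 0)).r2 ≤ 1 ∧ (s (cid N t o 2)).l2 ≤ 1 ∧
      (s (cid N t o 2)).r2 + (s (cid N t o 3)).l2 ≤ 1 ∧ (s (cid N t o 3)).r2 ≤ 1 ∧
      (cf o t = true → (s (cid N o t 0)).r2 + (s (cid N t o 2)).l2 ≤ 1) := by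
    intro o t ho ht
    obtain ⟨a, Z, ha, h⟩ := T o t ho ht
    cases hc : cf o t <;> rw [hc] at h <;>
      simp only [test, cond, List.cons_append, List.nil_append, RunI, Bool.toNat_true] at h <;>
      simp only [Bool.false_eq_true, false_imp_iff, forall_const, and_true] <;> omega
  have C := (RunI.flatMap_inv (fun _ => True) clause (List.range m) (fun c _ a Z _ h => by
    simp only [clause, List.cons_append, List.nil_append, RunI] at h
    exact ⟨_, trivial, h.2.2.2.2.2.2.2.2.2⟩) a₂ _ trivial h₂').2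
  -- the first path
  have stepC : ∀ o, ∀ t ∈ List.range N, ∀ a Z, 1 ≤ a →
      RunI (fun g => (s g).l1) (fun g => (s g).r1) a (wireC N o t ++ Z) 1 →
      ∃ a', 1 ≤ a' ∧ RunI (fun g => (s g).l1) (fun g => (s g).r1) a' Z 1 := by
    intro o t _ a Z _ h
    simp only [wireC, List.cons_append, List.nil_append, RunI] at h
    exact ⟨_, by simp, h.2.2.2.2⟩
  have W := (RunI.flatMap_inv (fun a => 1 ≤ a) (wire N) (List.range N) (fun o _ a Z _ h => by
    simp only [wire, List.cons_append, List.append_assoc, List.nil_append, RunI] at h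
    obtain ⟨a', -, h'⟩ := (RunI.flatMap_inv (fun a => 1 ≤ a) (wireC N o) (List.range N)
      (stepC o) _ _ (by simp) h.2).1
    exact ⟨_, by simp, h'.2⟩) 1 _ le_rfl h₁).2
  have W1 : ∀ o, o < N → (s (3 * o + 1)).l1 ≤ 1 := by
    intro o ho
    obtain ⟨a, Z, ha, h⟩ := W o (List.mem_range.2 ho)
    simp only [wire, List.cons_append, List.append_assoc, List.nil_append, RunI] at h
    omega
  have W2 : ∀ o t, o < N → t < N → 1 ≤ (s (3 * o + 1)).r1 →
      (s (cid N o t 0)).r2 = 1 ∧ (s (cid N o t 2)).l2 = 1 := by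
    intro o t ho ht hs
    obtain ⟨a, Z, ha, h⟩ := W o (List.mem_range.2 ho)
    simp only [wire, List.cons_append, List.append_assoc, List.nil_append, RunI] at h
    have key : ∀ t, t < N → ∀ a Z, 2 ≤ a →
        RunI (fun g => (s g).l1) (fun g => (s g).r1) a (wireC N o t ++ Z) 1 →
        ((s (cid N o t 0)).r2 = 1 ∧ (s (cid N o t 2)).l2 = 1) ∧
        ∃ a', 2 ≤ a' ∧ RunI (fun g => (s g).l1) (fun g => (s g).r1) a' Z 1 := by
      intro t ht a Z ha h
      simp only [wireC, List.cons_append, List.nil_append, RunI, Bool.toNat_true] at h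
      obtain ⟨e0, e1, e2, e3, e4⟩ := h
      have e5 := e4.le_two (by omega)
      obtain ⟨t1, t2, t3, -⟩ := T' o t ho ht
      obtain ⟨-, -, -, t4, t5, t6, -⟩ := T' t o ht ho
      have u0 := (s (cid N o t 0)).ab (by omega) (by omega) (by omega) (by omega)
      have u1 := (s (cid N o t 1)).ab (by omega) (by omega) (by omega) (by omega)
      have u2 := (s (cid N o t 2)).ab (by omega) (by omega) (by omega) (by omega)
      have u3 := (s (cid N o t 3)).ab (by omega) (by omega) (by omega) (by omega)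
      exact ⟨by omega, _, by omega, e4⟩
    obtain ⟨a', Z', ha', h'⟩ := (RunI.flatMap_inv (fun a => 2 ≤ a) (wireC N o) (List.range N)
      (fun t ht a Z ha h => (key t (List.mem_range.1 ht) a Z ha h).2) _ _
      (by simp only [Bool.toNat_true]; omega) h.2).2 t (List.mem_range.2 ht)
    exact (key t ht a' Z' ha' h').1
  refine ⟨fun o => 1 ≤ (s (3 * o + 1)).r1, fun o t ho ht hc so st => ?_, fun c hc => ?_⟩
  · have := (T' o t ho ht).2.2.2.2.2.2 hc
    have := (W2 o t ho ht so).1
    have := (W2 t o ht ho st).2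
    omega
  · by_contra hn
    simp only [not_or, not_le, Nat.lt_one_iff] at hn
    obtain ⟨a, Z, -, h⟩ := C c (List.mem_range.2 hc)
    simp only [clause, List.cons_append, List.nil_append, RunI, Bool.toNat_true,
      Bool.toNat_false] at h
    have u0 := (s (3 * (3 * c) + 1)).af (W1 _ (by omega)) hn.1
    have u1 := (s (3 * (3 * c + 1) + 1)).af (W1 _ (by omega)) hn.2.1
    have u2 := (s (3 * (3 * c + 2) + 1)).af (W1 _ (by omega)) hn.2.2
    omega

/-- the states for a selection -/
def stOf (N : ℕ) (sel : ℕ → Bool) (g : ℕ) : St :=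
  if g < 3 * N then
    if g % 3 = 0 then .A else if g % 3 = 2 then .B else
      if sel (g / 3) then .B else if g / 3 % 3 = 0 ∧ sel (g / 3 + 1) = false then .F else .A
  else if (g - 3 * N) % 7 = 6 then .A else if 4 ≤ (g - 3 * N) % 7 then .B
  else if (g - 3 * N) % 7 % 2 = 0 then (if sel ((g - 3 * N) / 7 / N) then .A else .B)
  else (if sel ((g - 3 * N) / 7 / N) then .B else .A)

theorem stOf_H {N : ℕ} (sel : ℕ → Bool) {o : ℕ} (h : o < N) : stOf N sel (3 * o) = .A := by
  unfold stOf
  rw [if_pos (by omega), if_pos (by omega)]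

theorem stOf_S {N : ℕ} (sel : ℕ → Bool) {o : ℕ} (h : o < N) : stOf N sel (3 * o + 2) = .B := by
  unfold stOf
  rw [if_pos (by omega), if_neg (by omega), if_pos (by omega)]

theorem stOf_R {N : ℕ} (sel : ℕ → Bool) {o : ℕ} (h : o < N) : stOf N sel (3 * o + 1) =
    if sel o then .B else if o % 3 = 0 ∧ sel (o + 1) = false then .F else .A := by
  unfold stOf
  rw [if_pos (by omega), if_neg (by omega), if_neg (by omega),
    show (3 * o + 1) / 3 = o by omega]

theorem stOf_cid {N : ℕ} (sel : ℕ → Bool) (o : ℕ) {t i : ℕ} (ht : t < N) (hi : i < 7) :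
    stOf N sel (cid N o t i) = if i = 6 then .A else if 4 ≤ i then .B
      else if i % 2 = 0 then (if sel o then .A else .B) else (if sel o then .B else .A) := by
  unfold stOf
  have e1 : (cid N o t i - 3 * N) % 7 = i := by unfold cid; omega
  have e2 : (cid N o t i - 3 * N) / 7 / N = o := by
    rw [show (cid N o t i - 3 * N) / 7 = o * N + t by unfold cid; omega,
      Nat.add_comm, Nat.add_mul_div_right _ _ (by omega), Nat.div_eq_of_lt ht, Nat.zero_add]
  rw [if_neg (by unfold cid; omega), e1, e2]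

theorem complete (m : ℕ) (cf : ℕ → ℕ → Bool) (sel : ℕ → Bool)
    (h₁ : ∀ o t, o < 3 * m → t < 3 * m → cf o t = true → sel o = true → ¬ sel t = true)
    (h₂ : ∀ c, c < m → sel (3 * c) = true ∨ sel (3 * c + 1) = true ∨ sel (3 * c + 2) = true) :
    ∃ s : ℕ → St, RunI (fun g => (s g).l1) (fun g => (s g).r1) 1 (L1 (3 * m)) 1 ∧
      RunI (fun g => (s g).l2) (fun g => (s g).r2) 1 (L2 m cf) 1 := by
  set N := 3 * m with hN
  refine ⟨stOf N sel, ?_, ?_⟩
  · refine RunI.flatMap_of (fun a => a ≤ 1) _ _ (fun o ho a Z ha h => ?_) _ _ le_rfl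
      fun a ha => RunI.flatMap_of (fun a => a ≤ 1) _ _ (fun o ho a Z ha h => ?_) _ _ ha
      fun a ha => ?_
    · have ho := List.mem_range.1 ho
      simp only [wire, List.cons_append, List.append_assoc, List.nil_append, RunI]
      refine ⟨?_, RunI.flatMap_of (fun a => a ≤ 1 + (sel o).toNat) _ _
        (fun t ht a Z ha h => ?_) _ _ ?_ fun a ha => ⟨?_, h _ ?_⟩⟩
      · rw [stOf_R sel ho]
        split_ifs <;> simp only [St.l1] <;> omega
      · have ht := List.mem_range.1 ht
        simp only [wireC, List.cons_append, List.nil_append, RunI]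
        rw [stOf_cid sel o ht (by omega), stOf_cid sel o ht (by omega),
          stOf_cid sel o ht (by omega), stOf_cid sel o ht (by omega)]
        cases hs : sel o <;> rw [hs] at ha h <;> simp [St.l1, St.r1] at ha ⊢ <;>
          exact ⟨by omega, h _ (by simp)⟩
      · rw [stOf_R sel ho]
        cases sel o <;> split_ifs <;> simp_all [St.r1]
      · simp only [stOf_H sel ho, St.l1]
        have := (sel o).toNat_le
        omega
      · simp [stOf_H sel ho, St.r1]
    · have ho := List.mem_range.1 ho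
      simp only [List.cons_append, List.nil_append, RunI, stOf_S sel ho, St.l1, St.r1]
      exact ⟨by omega, h _ (by simp)⟩
    · rw [← List.append_nil (cells N (fill1 N))]
      refine RunI.cells_of (fun a => a ≤ 1) _ _ (fun o t ho ht a Z ha h => ?_) _ _ ha
        fun a ha => ha
      simp only [fill1, List.cons_append, List.nil_append, RunI]
      rw [stOf_cid sel o ht (by omega), stOf_cid sel o ht (by omega),
        stOf_cid sel o ht (by omega)]
      simp [St.l1, St.r1]
      exact ⟨by omega, h _ (by simp)⟩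
  · refine RunI.cells_of (fun a => a ≤ 1) _ _ (fun o t ho ht a Z ha h => ?_) _ _ le_rfl
      fun a ha => RunI.flatMap_of (fun a => a ≤ 1) _ _ (fun c hc a Z ha h => ?_) _ _ ha
      fun a ha => ?_
    · have h3 := h₁ o t ho ht
      cases hc : cf o t <;>
        simp only [test, cond, List.cons_append, List.nil_append, RunI] <;>
        rw [stOf_cid sel o (i := 0) ht (by omega), stOf_cid sel o (i := 1) ht (by omega),
          stOf_cid sel o (i := 4) ht (by omega), stOf_cid sel o (i := 5) ht (by omega),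
          stOf_cid sel t (i := 2) ho (by omega), stOf_cid sel t (i := 3) ho (by omega)] <;>
        cases hs : sel o <;> cases hs' : sel t <;> simp [hc, hs, hs'] at h3 <;>
        simp [St.l2, St.r2] <;> exact ⟨by omega, h _ (by simp)⟩
    · have hc := List.mem_range.1 hc
      have h3 := h₂ c hc
      simp only [clause, List.cons_append, List.nil_append, RunI]
      rw [stOf_H sel (o := 3 * c) (by omega), stOf_H sel (o := 3 * c + 1) (by omega),
        stOf_H sel (o := 3 * c + 2) (by omega), stOf_S sel (o := 3 * c) (by omega),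
        stOf_S sel (o := 3 * c + 1) (by omega), stOf_S sel (o := 3 * c + 2) (by omega),
        stOf_R sel (o := 3 * c) (by omega), stOf_R sel (o := 3 * c + 1) (by omega),
        stOf_R sel (o := 3 * c + 2) (by omega)]
      have e0 : 3 * c % 3 = 0 := by omega
      have e1 : ¬ (3 * c + 1) % 3 = 0 := by omega
      have e2 : ¬ (3 * c + 2) % 3 = 0 := by omega
      simp only [e0, e1, e2, true_and, false_and, if_false]
      cases h0 : sel (3 * c) <;> cases h1 : sel (3 * c + 1) <;> cases h2 : sel (3 * c + 2) <;>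
        simp [h0, h1, h2] at h3 <;> simp [St.l2, St.r2] <;> exact ⟨by omega, h _ (by simp)⟩
    · rw [← List.append_nil (cells N _)]
      refine RunI.cells_of (fun a => a ≤ 1) _ _ (fun o t ho ht a Z ha h => ?_) _ _ ha
        fun a ha => ha
      simp only [List.cons_append, List.nil_append, RunI]
      rw [stOf_cid sel o ht (by omega)]
      simp [St.l2, St.r2]
      exact ⟨by omega, h _ (by simp)⟩

end Pool.Agent.Lib.MP_833c47_lc
end
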