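import Pool.Agent.Lib.MP_833c47_lc.Defs

/-! Domination of a path, read from left to right. -/

set_option autoImplicit false

namespace Pool.Agent.Lib.MP_833c47_lc

/-- `a` counts the consecutive vertices outside the set just before the list. -/
def Run : ℕ → List Bool → ℕ → Prop
  | a, [], c => a ≤ c
  | a, true :: l, c => a ≤ 2 ∧ Run 0 l c
  | a, false :: l, c => Run (a + 1) l c

/-- local form of domination -/
def Loc (prev : Bool) (l : List Bool) : Prop :=
  ∀ i, i < l.length → l[i]? = some true ∨ (i = 0 ∧ prev = true) ∨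
    (∃ j, j + 1 = i ∧ l[j]? = some true) ∨ l[i + 1]? = some true

theorem loc_cons (prev x : Bool) (l : List Bool) :
    Loc prev (x :: l) ↔ (x = true ∨ prev = true ∨ l[0]? = some true) ∧ Loc x l := by
  constructor
  · intro h
    refine ⟨by simpa using h 0 (by simp), fun i hi => ?_⟩
    rcases h (i + 1) (by simpa using hi) with h | h | ⟨j, hj, h⟩ | h
    · exact Or.inl (by simpa using h)
    · omega
    · rcases j with _ | j
      · exact Or.inr (Or.inl ⟨by omega, by simpa using h⟩)
      · exact Or.inr (Or.inr (Or.inl ⟨j, by omega, by simpa using h⟩))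
    · exact Or.inr (Or.inr (Or.inr (by simpa using h)))
  · rintro ⟨h0, h⟩ i hi
    rcases i with _ | i
    · simpa using h0
    · rcases h i (by simpa using hi) with h | ⟨rfl, h⟩ | ⟨j, hj, h⟩ | h
      · exact Or.inl (by simpa using h)
      · exact Or.inr (Or.inr (Or.inl ⟨0, rfl, by simpa using h⟩))
      · exact Or.inr (Or.inr (Or.inl ⟨j + 1, by omega, by simpa using h⟩))
      · exact Or.inr (Or.inr (Or.inr (by simpa using h)))

theorem Run.le_two {l : List Bool} {c : ℕ} (hc : c ≤ 2) : ∀ {a : ℕ}, Run a l c → a ≤ 2 := by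
  induction l with
  | nil => intro a h; exact le_trans h hc
  | cons x l ih =>
    intro a h
    cases x
    · have := ih h
      omega
    · exact h.1

theorem run_iff_loc (l : List Bool) : (Run 0 l 1 ↔ Loc true l) ∧ (Run 1 l 1 ↔ Loc false l) ∧
    (Run 2 l 1 ↔ l[0]? = some true ∧ Loc false l) := by
  induction l with
  | nil => simp [Run, Loc]
  | cons x l ih =>
    obtain ⟨h0, h1, h2⟩ := ih
    have h3 : ¬ Run 3 l 1 := fun h => absurd (h.le_two (by omega)) (by omega)
    cases x <;> simp [Run, loc_cons, h0, h1, h2, h3]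

theorem dominates_iff_loc {n : ℕ} {P : List ℕ} (hP : IsHamPath n P) (D : Finset ℕ) :
    Dominates n P D ↔ Loc false (P.map fun v => decide (v ∈ D)) := by
  have hnd : P.Nodup := hP.nodup_iff.2 (List.nodup_range' 1)
  have hmem : ∀ v, v ∈ P ↔ v ∈ Finset.Icc 1 n := fun v => by
    rw [hP.mem_iff, List.mem_range'_1, Finset.mem_Icc]; omega
  have key : ∀ i : ℕ, (P.map fun v => decide (v ∈ D))[i]? = some true ↔ ∃ u ∈ D, P[i]? = some u := by
    intro i
    rw [List.getElem?_map]
    rcases P[i]? with _ | u <;> simp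
  have uniq : ∀ {i j v : ℕ}, P[i]? = some v → P[j]? = some v → i = j := by
    intro i j v h1 h2
    obtain ⟨hi, -⟩ := List.getElem?_eq_some_iff.1 h1
    exact (List.getElem?_inj hi hnd).1 (h1.trans h2.symm)
  constructor
  · intro h i hi
    rw [List.length_map] at hi
    simp only [key]
    have hv : P[i]? = some P[i] := List.getElem?_eq_getElem hi
    by_cases hD : P[i] ∈ D
    · exact Or.inl ⟨_, hD, hv⟩
    · obtain ⟨u, hu, j, ⟨h1, h2⟩ | ⟨h1, h2⟩⟩ := h P[i] ((hmem _).1 (List.getElem_mem hi)) hD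
      · exact Or.inr (Or.inr (Or.inl ⟨j, uniq h2 hv, u, hu, h1⟩))
      · obtain rfl := uniq h1 hv
        exact Or.inr (Or.inr (Or.inr ⟨u, hu, h2⟩))
  · intro h v hv hD
    obtain ⟨i, hi, rfl⟩ := List.getElem_of_mem ((hmem v).2 hv)
    have hv : P[i]? = some P[i] := List.getElem?_eq_getElem hi
    have h1 := h i (by simpa using hi)
    simp only [key] at h1
    rcases h1 with ⟨u, hu, h1⟩ | h1 | ⟨j, rfl, u, hu, h1⟩ | ⟨u, hu, h1⟩
    · rw [hv, Option.some.injEq] at h1
      exact absurd (h1 ▸ hu) hD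
    · simp at h1
    · exact ⟨u, hu, j, Or.inl ⟨h1, hv⟩⟩
    · exact ⟨u, hu, i, Or.inr ⟨hv, h1⟩⟩

theorem dominates_iff_run {n : ℕ} {P : List ℕ} (hP : IsHamPath n P) (D : Finset ℕ) :
    Dominates n P D ↔ Run 1 (P.map fun v => decide (v ∈ D)) 1 := by
  rw [dominates_iff_loc hP, (run_iff_loc _).2.1]

end Pool.Agent.Lib.MP_833c47_lc
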